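import Pool.Agent.LIQuasi.CK

/-!
MP_0c2877_al: a nontrivial soluble right-orderable group with finite abelianization is not
abelian-by-(finitely generated).
-/

namespace Pool.Agent.Results.MP_0c2877_al.AbelianByFG

open Pool.LIQuasi

variable {G : Type} [Group G]

/-- commutators of `L` with a set `F`. -/
def cset (L : Subgroup G) (F : Set G) : Set G := {z | ∃ l ∈ L, ∃ a ∈ F, z = l * a * l⁻¹ * a⁻¹}

theorem commutator_le_sup (L A : Subgroup G) [hAn : A.Normal]
    (hab : ∀ a ∈ A, ∀ b ∈ A, a * b = b * a) (hLA : ∀ g : G, ∃ l ∈ L, ∃ a ∈ A, g = l * a) :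
    commutator G ≤ ⁅L, L⁆ ⊔ Subgroup.closure (cset L (A : Set G)) := by
  let N : Subgroup G := Subgroup.closure (cset L (A : Set G))
  have hc : ∀ l ∈ L, ∀ a ∈ A, l * a * l⁻¹ * a⁻¹ ∈ N :=
    fun l hl a ha => Subgroup.subset_closure ⟨l, hl, a, ha, rfl⟩
  have hNA : N ≤ A := by
    rw [Subgroup.closure_le]
    rintro z ⟨l, hl, a, ha, rfl⟩
    exact A.mul_mem (hAn.conj_mem a ha l) (A.inv_mem ha)
  have hNn : N.Normal := by
    constructor
    intro n hn g
    obtain ⟨l, hl, a, ha, rfl⟩ := hLA g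
    have e1 : l * a * n * (l * a)⁻¹ = l * n * l⁻¹ := by
      have : a * n = n * a := hab a ha n (hNA hn)
      calc l * a * n * (l * a)⁻¹ = l * (a * n) * a⁻¹ * l⁻¹ := by group
        _ = l * (n * a) * a⁻¹ * l⁻¹ := by rw [this]
        _ = l * n * l⁻¹ := by group
    rw [e1]
    have e2 : l * n * l⁻¹ = (l * n * l⁻¹ * n⁻¹) * n := by group
    rw [e2]
    exact N.mul_mem (hc l hl n (hNA hn)) hn
  have hcomm : ∀ l ∈ L, ∀ a ∈ A, (QuotientGroup.mk (l * a) : G ⧸ N) = QuotientGroup.mk (a * l) := by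
    intro l hl a ha
    rw [QuotientGroup.eq]
    have h1 := hNn.conj_mem _ (N.inv_mem (hc l hl a ha)) (l * a)⁻¹
    have e : (l * a)⁻¹ * (l * a * l⁻¹ * a⁻¹)⁻¹ * ((l * a)⁻¹)⁻¹ = (l * a)⁻¹ * (a * l) := by group
    rwa [e] at h1
  rw [commutator_def, Subgroup.commutator_le]
  intro g _ h _
  obtain ⟨l, hl, a, ha, rfl⟩ := hLA g
  obtain ⟨k, hk, b, hb, rfl⟩ := hLA h
  show l * a * (k * b) * (l * a)⁻¹ * (k * b)⁻¹ ∈ _
  have hmem : (l * k * l⁻¹ * k⁻¹)⁻¹ * (l * a * (k * b) * (l * a)⁻¹ * (k * b)⁻¹) ∈ N := by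
    rw [← QuotientGroup.eq]
    have c1 := hcomm l hl a ha
    have c2 := hcomm l hl b hb
    have c3 := hcomm k hk a ha
    have c4 := hcomm k hk b hb
    have c5 : (QuotientGroup.mk (a * b) : G ⧸ N) = QuotientGroup.mk (b * a) := by
      rw [hab a ha b hb]
    simp only [QuotientGroup.mk_mul] at c1 c2 c3 c4 c5
    have C2 : Commute (QuotientGroup.mk l : G ⧸ N) (QuotientGroup.mk b) := c2
    have C3 : Commute (QuotientGroup.mk a : G ⧸ N) (QuotientGroup.mk k) := c3.symm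
    have C5 : Commute (QuotientGroup.mk a : G ⧸ N) (QuotientGroup.mk b) := c5
    have C1 : Commute (QuotientGroup.mk a : G ⧸ N) (QuotientGroup.mk l) := c1.symm
    have C4 : Commute (QuotientGroup.mk b : G ⧸ N) (QuotientGroup.mk k) := c4.symm
    simp only [QuotientGroup.mk_mul, QuotientGroup.mk_inv, mul_inv_rev]
    generalize (QuotientGroup.mk l : G ⧸ N) = l' at *
    generalize (QuotientGroup.mk k : G ⧸ N) = k' at *
    generalize (QuotientGroup.mk a : G ⧸ N) = a' at *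
    generalize (QuotientGroup.mk b : G ⧸ N) = b' at *
    symm
    calc l' * a' * (k' * b') * (a'⁻¹ * l'⁻¹) * (b'⁻¹ * k'⁻¹)
        = l' * (a' * k') * (b' * a'⁻¹) * (l'⁻¹ * b'⁻¹) * k'⁻¹ := by group
      _ = l' * (k' * a') * (a'⁻¹ * b') * (b'⁻¹ * l'⁻¹) * k'⁻¹ := by
          rw [C3.eq, C5.inv_left.eq, (C2.inv_inv).eq]
      _ = l' * k' * l'⁻¹ * k'⁻¹ := by group
  have e : l * a * (k * b) * (l * a)⁻¹ * (k * b)⁻¹ = (l * k * l⁻¹ * k⁻¹) *
      ((l * k * l⁻¹ * k⁻¹)⁻¹ * (l * a * (k * b) * (l * a)⁻¹ * (k * b)⁻¹)) := by group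
  rw [e]
  exact Subgroup.mul_mem _ (Subgroup.mem_sup_left (Subgroup.commutator_mem_commutator hl hk))
    (Subgroup.mem_sup_right hmem)

theorem finite_support (L A : Subgroup G) (x : G)
    (hx : x ∈ ⁅L, L⁆ ⊔ Subgroup.closure (cset L (A : Set G))) :
    ∃ F : Finset G, (F : Set G) ⊆ A ∧ x ∈ ⁅L, L⁆ ⊔ Subgroup.closure (cset L (F : Set G)) := by
  classical
  have hle : ⁅L, L⁆ ⊔ Subgroup.closure (cset L (A : Set G)) ≤
      { carrier := {x | ∃ F : Finset G, (F : Set G) ⊆ A ∧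
          x ∈ ⁅L, L⁆ ⊔ Subgroup.closure (cset L (F : Set G))}
        mul_mem' := by
          rintro a b ⟨F, hF, ha⟩ ⟨F', hF', hb⟩
          refine ⟨F ∪ F', ?_, ?_⟩
          · intro z hz
            rw [Finset.coe_union] at hz
            exact hz.elim (fun h => hF h) (fun h => hF' h)
          · apply Subgroup.mul_mem
            · refine (sup_le_sup_left (Subgroup.closure_mono ?_) _) ha
              rintro z ⟨l, hl, a, ha, rfl⟩
              exact ⟨l, hl, a, by rw [Finset.coe_union]; exact Or.inl ha, rfl⟩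
            · refine (sup_le_sup_left (Subgroup.closure_mono ?_) _) hb
              rintro z ⟨l, hl, a, ha, rfl⟩
              exact ⟨l, hl, a, by rw [Finset.coe_union]; exact Or.inr ha, rfl⟩
        one_mem' := ⟨∅, by simp, Subgroup.one_mem _⟩
        inv_mem' := by
          rintro a ⟨F, hF, ha⟩
          exact ⟨F, hF, Subgroup.inv_mem _ ha⟩ : Subgroup G } := by
    rw [sup_le_iff]
    constructor
    · intro z hz
      exact ⟨∅, by simp, Subgroup.mem_sup_left hz⟩
    · rw [Subgroup.closure_le]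
      rintro z ⟨l, hl, a, ha, rfl⟩
      refine ⟨{a}, by simpa using ha, Subgroup.mem_sup_right (Subgroup.subset_closure ?_)⟩
      exact ⟨l, hl, a, by simp, rfl⟩
  exact hle hx

/-- A nontrivial soluble right-orderable group with an abelian normal subgroup `A` such that
`G/A` is finitely generated has infinite abelianization. -/
theorem result (G : Type) [Group G] [Nontrivial G] (hs : Group.IsSolvable G) (hro : RO G)
    (A : Subgroup G) [hAn : A.Normal] (hab : ∀ a ∈ A, ∀ b ∈ A, a * b = b * a)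
    (hfg : Group.FG (G ⧸ A)) : Infinite (Abelianization G) := by
  classical
  by_contra hfin
  rw [not_infinite_iff_finite] at hfin
  have hLI : LI G := hro.li hs
  -- torsion of the abelianization
  have hpow : ∀ x : G, x ^ Nat.card (Abelianization G) ∈ commutator G := by
    intro x
    rw [← Abelianization.ker_of G, MonoidHom.mem_ker, map_pow]
    exact pow_card_eq_one'
  have hcard : Nat.card (Abelianization G) ≠ 0 := Nat.card_pos.ne'
  generalize Nat.card (Abelianization G) = k at hpow hcard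
  have hz : ∀ u : Multiplicative ℤ, u ^ k = 1 → u = 1 := by
    intro u hu
    have h2 : (k : ℤ) * Multiplicative.toAdd u = 0 := by
      have := congrArg Multiplicative.toAdd hu
      rw [toAdd_pow, nsmul_eq_mul] at this
      exact this
    rcases mul_eq_zero.1 h2 with h3 | h3
    · exact absurd (by exact_mod_cast h3) hcard
    · exact h3
  have hno : NoZ G := by
    intro f
    ext x
    have h1 : f (x ^ k) = 1 := Abelianization.commutator_subset_ker f (hpow x)
    rw [map_pow] at h1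
    rw [hz _ h1]; rfl
  -- the finitely generated supplement
  obtain ⟨S0, hS0⟩ := Group.fg_def.1 hfg
  let S : Finset G := S0.image Quotient.out
  obtain ⟨x0, hx0⟩ := exists_ne (1 : G)
  let S1 : Finset G := insert x0 S
  let L : Subgroup G := Subgroup.closure (S1 : Set G)
  have hLA : ∀ g : G, ∃ l ∈ L, ∃ a ∈ A, g = l * a := by
    have hmap : L.map (QuotientGroup.mk' A) = ⊤ := by
      rw [eq_top_iff, ← hS0, Subgroup.closure_le]
      intro z hz
      refine ⟨Quotient.out z, Subgroup.subset_closure ?_, ?_⟩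
      · exact Finset.mem_coe.2 (Finset.mem_insert_of_mem (Finset.mem_image_of_mem _ hz))
      · exact Quotient.out_eq z
    intro g
    have : (QuotientGroup.mk g : G ⧸ A) ∈ L.map (QuotientGroup.mk' A) := by rw [hmap]; trivial
    obtain ⟨l, hl, hlg⟩ := this
    refine ⟨l, hl, l⁻¹ * g, ?_, by group⟩
    rw [← QuotientGroup.eq]
    exact hlg
  have hfs : ∀ s : G, ∃ F : Finset G, (F : Set G) ⊆ A ∧
      s ^ k ∈ ⁅L, L⁆ ⊔ Subgroup.closure (cset L (F : Set G)) :=
    fun s => finite_support L A _ (commutator_le_sup L A hab hLA (hpow s))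
  choose Fs hFs1 hFs2 using hfs
  let F : Finset G := S1.biUnion Fs
  have hFA : (F : Set G) ⊆ A := by
    intro z hz
    obtain ⟨s, _, hs'⟩ := Finset.mem_biUnion.1 (Finset.mem_coe.1 hz)
    exact hFs1 s hs'
  have hF : ∀ s ∈ S1, s ^ k ∈ ⁅L, L⁆ ⊔ Subgroup.closure (cset L (F : Set G)) := by
    intro s hs'
    refine (sup_le_sup_left (Subgroup.closure_mono ?_) _) (hFs2 s)
    rintro z ⟨l, hl, a, ha, rfl⟩
    exact ⟨l, hl, a, Finset.mem_coe.2 (Finset.mem_biUnion.2 ⟨s, hs', ha⟩), rfl⟩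
  -- the big finitely generated group
  let E : Finset G := S1 ∪ Finset.image₂ (fun s a => s * a * s⁻¹ * a⁻¹) S1 F
  let K : Subgroup G := Subgroup.closure (E : Set G)
  have hS1K : ∀ s ∈ S1, s ∈ K := fun s hs' =>
    Subgroup.subset_closure (Finset.mem_coe.2 (Finset.mem_union_left _ hs'))
  have hLK : L ≤ K := by
    rw [Subgroup.closure_le]
    exact fun s hs' => hS1K s (Finset.mem_coe.1 hs')
  have hcK : ∀ a ∈ F, ∀ l ∈ L, l * a * l⁻¹ * a⁻¹ ∈ K := by
    intro a ha l hl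
    induction hl using Subgroup.closure_induction with
    | mem s hs' =>
      exact Subgroup.subset_closure (Finset.mem_coe.2 (Finset.mem_union_right _
        (Finset.mem_image₂_of_mem (Finset.mem_coe.1 hs') ha)))
    | one => simp
    | mul g h hg hh ihg ihh =>
      have e : g * h * a * (g * h)⁻¹ * a⁻¹ = g * (h * a * h⁻¹ * a⁻¹) * g⁻¹ * (g * a * g⁻¹ * a⁻¹) := by
        group
      rw [e]
      exact K.mul_mem (K.mul_mem (K.mul_mem (hLK hg) ihh) (K.inv_mem (hLK hg))) ihg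
    | inv g hg ihg =>
      have e : g⁻¹ * a * g⁻¹⁻¹ * a⁻¹ = g⁻¹ * (g * a * g⁻¹ * a⁻¹)⁻¹ * g := by group
      rw [e]
      exact K.mul_mem (K.mul_mem (K.inv_mem (hLK hg)) (K.inv_mem ihg)) (hLK hg)
  have hKfg : K.FG := ⟨E, rfl⟩
  have hKne : K ≠ ⊥ := by
    intro h
    have : x0 ∈ K := hS1K x0 (Finset.mem_insert_self _ _)
    rw [h, Subgroup.mem_bot] at this
    exact hx0 this
  obtain ⟨f, hf⟩ := hLI K hKfg hKne
  -- f vanishes on the commutators
  have hbeta : ∀ a (ha : a ∈ F) l (hl : l ∈ L), f ⟨l * a * l⁻¹ * a⁻¹, hcK a ha l hl⟩ = 1 := by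
    intro a ha
    let β : L →* Multiplicative ℤ := MonoidHom.mk' (fun l => f ⟨l * a * l⁻¹ * a⁻¹, hcK a ha l l.2⟩) (by
      intro g h
      have e : (⟨((g * h : L) : G) * a * ((g * h : L) : G)⁻¹ * a⁻¹, hcK a ha _ (g * h).2⟩ : K)
          = ⟨g, hLK g.2⟩ * ⟨h * a * (h : G)⁻¹ * a⁻¹, hcK a ha h h.2⟩ * ⟨g, hLK g.2⟩⁻¹ *
            ⟨g * a * (g : G)⁻¹ * a⁻¹, hcK a ha g g.2⟩ := by
        apply Subtype.ext
        show (g : G) * h * a * ((g : G) * h)⁻¹ * a⁻¹ = g * (h * a * (h : G)⁻¹ * a⁻¹) * (g : G)⁻¹ *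
          (g * a * (g : G)⁻¹ * a⁻¹)
        group
      refine (congrArg f e).trans ?_
      rw [map_mul, map_mul, map_mul, map_inv, mul_inv_cancel_comm, mul_comm]
      rfl)
    let π : L →* G ⧸ A := (QuotientGroup.mk' A).comp L.subtype
    have hπ : Function.Surjective π := by
      intro z
      obtain ⟨g, rfl⟩ := QuotientGroup.mk_surjective z
      obtain ⟨l, hl, b, hb, rfl⟩ := hLA g
      refine ⟨⟨l, hl⟩, ?_⟩
      show (QuotientGroup.mk l : G ⧸ A) = QuotientGroup.mk (l * b)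
      rw [QuotientGroup.eq]
      simpa using hb
    have hker : π.ker ≤ β.ker := by
      intro l hl
      have hlA : (l : G) ∈ A := (QuotientGroup.eq_one_iff (l : G)).1 hl
      rw [MonoidHom.mem_ker]
      show f ⟨l * a * (l : G)⁻¹ * a⁻¹, _⟩ = 1
      have e : (⟨(l : G) * a * (l : G)⁻¹ * a⁻¹, hcK a ha l l.2⟩ : K) = 1 := by
        apply Subtype.ext
        show (l : G) * a * (l : G)⁻¹ * a⁻¹ = 1
        rw [hab l hlA a (hFA ha)]; group
      rw [e, map_one]
    let γ : G ⧸ A →* Multiplicative ℤ := π.liftOfSurjective hπ ⟨β, hker⟩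
    have hγ : ∀ l : L, γ (π l) = β l := fun l =>
      MonoidHom.liftOfRightInverse_comp_apply π _ _ ⟨β, hker⟩ l
    have hγ0 := hno (γ.comp (QuotientGroup.mk' A))
    intro l hl
    have h1 := DFunLike.congr_fun hγ0 l
    have h2 : γ (π ⟨l, hl⟩) = 1 := h1
    rw [hγ] at h2
    exact h2
  -- f vanishes on K
  have hT : ⁅L, L⁆ ⊔ Subgroup.closure (cset L (F : Set G)) ≤ (f.ker).map K.subtype := by
    rw [sup_le_iff]
    constructor
    · rw [Subgroup.commutator_le]
      intro g hg h hh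
      let g' : K := ⟨g, hLK hg⟩
      let h' : K := ⟨h, hLK hh⟩
      refine ⟨g' * h' * g'⁻¹ * h'⁻¹, ?_, rfl⟩
      show f (g' * h' * g'⁻¹ * h'⁻¹) = 1
      rw [map_mul, map_mul, map_mul, map_inv, map_inv, mul_inv_cancel_comm, mul_inv_cancel]
    · rw [Subgroup.closure_le]
      rintro z ⟨l, hl, a, ha, rfl⟩
      exact Subgroup.mem_map.2 ⟨⟨l * a * l⁻¹ * a⁻¹, hcK a ha l hl⟩, hbeta a ha l hl, rfl⟩
  have hKker : K ≤ (f.ker).map K.subtype := by
    rw [Subgroup.closure_le]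
    intro z hz'
    rcases Finset.mem_union.1 (Finset.mem_coe.1 hz') with hz1 | hz1
    · obtain ⟨y, hy, hyz⟩ := hT (hF z hz1)
      refine ⟨⟨z, hS1K z hz1⟩, ?_, rfl⟩
      have e : y = ⟨z, hS1K z hz1⟩ ^ k := Subtype.ext hyz
      have hy' : f y = 1 := hy
      rw [e, map_pow] at hy'
      exact hz _ hy'
    · obtain ⟨s, hs', a, ha, rfl⟩ := Finset.mem_image₂.1 hz1
      have hsL : s ∈ L := Subgroup.subset_closure (Finset.mem_coe.2 hs')
      exact Subgroup.mem_map.2 ⟨⟨s * a * s⁻¹ * a⁻¹, hcK a ha s hsL⟩, hbeta a ha s hsL, rfl⟩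
  obtain ⟨y, hy⟩ := hf (Multiplicative.ofAdd 1)
  obtain ⟨y', hy', hyy⟩ := hKker y.2
  have e : y' = y := Subtype.ext hyy
  have hy1 : f y = 1 := by rw [← e]; exact hy'
  rw [hy] at hy1
  have h3 : (1 : ℤ) = 0 := hy1
  exact one_ne_zero h3

end Pool.Agent.Results.MP_0c2877_al.AbelianByFG
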